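import Pool.Agent.H751.AB.Mag

/-! Bounded torsion of quotients of finitely generated abelian groups. -/

set_option autoImplicit false

namespace Pool.Agent.H152.AB

open Pool.Agent.H751.AB

/-- the elements with a nonzero multiple in `S` -/
def tor {M : Type} [AddCommGroup M] (S : AddSubgroup M) : Submodule ℤ M where
  carrier := {x | ∃ c : ℤ, c ≠ 0 ∧ c • x ∈ S}
  add_mem' := by
    rintro x y ⟨c, hc, hx⟩ ⟨c', hc', hy⟩
    refine ⟨c * c', mul_ne_zero hc hc', ?_⟩
    rw [smul_add]
    refine S.add_mem ?_ ?_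
    · rw [mul_comm, mul_smul]
      exact S.zsmul_mem hx c'
    · rw [mul_smul]
      exact S.zsmul_mem hy c
  zero_mem' := ⟨1, one_ne_zero, by simp⟩
  smul_mem' := by
    rintro a x ⟨c, hc, hx⟩
    refine ⟨c, hc, ?_⟩
    rw [smul_comm]
    exact S.zsmul_mem hx a

theorem T_TORS : S_TORS := by
  classical
  intro M _ _ S
  have hN : IsNoetherian ℤ M := isNoetherian_of_isNoetherianRing_of_finite ℤ M
  obtain ⟨F, hF⟩ := hN.noetherian (tor S)
  have h1 : ∀ x : M, x ∈ F → ∃ c : ℤ, c ≠ 0 ∧ c • x ∈ S := by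
    intro x hx
    have h2 : x ∈ tor S := by
      rw [← hF]
      exact Submodule.subset_span hx
    exact h2
  choose! c hc0 hcS using h1
  refine ⟨∏ x ∈ F, (c x).natAbs, ?_, ?_⟩
  · exact Finset.prod_pos fun x hx => Int.natAbs_pos.2 (hc0 x hx)
  · intro x a ha hx
    set k : ℕ := ∏ x ∈ F, (c x).natAbs with hk
    let Q : AddSubgroup M := S.comap (DistribSMul.toAddMonoidHom M k)
    have hQ : ∀ y, y ∈ Q ↔ k • y ∈ S := fun y => Iff.rfl
    have h3 : tor S ≤ AddSubgroup.toIntSubmodule Q := by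
      rw [← hF, Submodule.span_le]
      intro y hy
      show y ∈ Q
      rw [hQ]
      have h4 : (c y).natAbs ∣ k := Finset.dvd_prod_of_mem _ hy
      obtain ⟨m, hm⟩ := h4
      rw [hm, mul_comm, mul_smul]
      refine S.nsmul_mem ?_ m
      rw [← natCast_zsmul]
      rcases Int.natAbs_eq (c y) with h5 | h5
      · rw [← h5]
        exact hcS y hy
      · have h6 : ((c y).natAbs : ℤ) = -(c y) := by omega
        rw [h6, neg_smul]
        exact S.neg_mem (hcS y hy)
    have h5 : x ∈ tor S := ⟨a, ha, hx⟩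
    have h6 : x ∈ Q := h3 h5
    exact (hQ x).1 h6

end Pool.Agent.H152.AB
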